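import Pool.Agent.Lib.MP_7a6e05_lc.Upper

namespace Pool.Agent.Results.MP_7a6e05_lc.DetUpper

open Pool.Agent.Lib.MP_7a6e05_lc

theorem result : ∃ A : Alg, ∀ (n : ℕ) (v : Fin (n + 1) → ℝ) (σ : List ℝ),
    (∀ i, 0 < v i) → (∀ x ∈ σ, 0 < x) →
      cost A v σ ≤ (3 + √5) / 2 * Real.exp ((√5 - 1) / 2) * opt v σ := by
  have h5 : √5 * √5 = 5 := Real.mul_self_sqrt (by norm_num)
  have h1 : 1 < √5 := by
    have : (0 : ℝ) ≤ √5 := Real.sqrt_nonneg 5
    nlinarith
  set B : ℝ := (√5 - 1) / 2 with hB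
  have hB0 : 0 < B := by rw [hB]; linarith
  have hβ : 1 < Real.exp B := Real.one_lt_exp_iff.mpr hB0
  refine ⟨alg (Real.exp B) (Real.exp B / Real.log (Real.exp B)), fun n v σ hv hσ => ?_⟩
  have key := alg_competitive hβ hv (fun j => σ.getD j 0) σ.length fun j hj => by
    rw [List.getD_eq_getElem _ _ hj]
    exact hσ _ (List.getElem_mem hj)
  rw [← eq_pre σ] at key
  refine key.trans_eq ?_
  rw [Real.log_exp]
  have : Real.exp B / B + Real.exp B = (3 + √5) / 2 * Real.exp B := by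
    have hinv : B⁻¹ = (1 + √5) / 2 := by
      refine inv_eq_of_mul_eq_one_right ?_
      rw [hB]; nlinarith
    rw [div_eq_mul_inv, hinv]; ring
  rw [this]

end Pool.Agent.Results.MP_7a6e05_lc.DetUpper
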