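import Pool.Agent.Lib.MP_7a6e05_lc.Split

namespace Pool.Agent.Results.MP_7a6e05_lc.SplitLower

open Pool.Agent.Lib.MP_7a6e05_lc MeasureTheory

/-- `X ω n v τ i` is the part of the last task of `τ` that the algorithm puts on machine `i`;
`M ω n v σ` bounds every machine load and the total running time of every task. -/
theorem result {Ω : Type*} [MeasurableSpace Ω] (μ : Measure Ω) [IsProbabilityMeasure μ]
    (X : Ω → (n : ℕ) → (Fin (n + 1) → ℝ) → List ℝ → Fin (n + 1) → ℝ)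
    (M : Ω → (n : ℕ) → (Fin (n + 1) → ℝ) → List ℝ → ℝ) (c : ℝ)
    (h : ∀ (n : ℕ) (v : Fin (n + 1) → ℝ) (σ : List ℝ), (∀ i, 0 < v i) → (∀ w ∈ σ, 0 < w) →
      (∀ ω (j : Fin σ.length), (∀ i, 0 ≤ X ω n v (σ.take (j + 1)) i) ∧
        ∑ i, X ω n v (σ.take (j + 1)) i = σ.get j ∧
        ∑ i, X ω n v (σ.take (j + 1)) i / v i ≤ M ω n v σ) ∧
      (∀ ω i, (∑ j : Fin σ.length, X ω n v (σ.take (j + 1)) i) / v i ≤ M ω n v σ) ∧
      Integrable (fun ω => M ω n v σ) μ ∧ ∫ ω, M ω n v σ ∂μ ≤ c * opt v σ) :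
    Real.exp 1 ≤ c :=
  sexp_one_le (keyK_of μ X M c h)

end Pool.Agent.Results.MP_7a6e05_lc.SplitLower
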